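import Pool.Agent.H8.FX.Def

/-! # SC.Box : exterior products of zero-cycles on a set of points `T` as a multilinear map (complete) -/

namespace SCX

open ES H68.BB FX

/-- the exterior product of zero-cycles: the coefficient of the tuple `R` is `∏ i, z i (R i)` -/
noncomputable def boxX {T : Type} {k : ℕ} (z : Fin k → (T →₀ ℤ)) : (Fin k → T) →₀ ℤ := by
  classical
  exact Finsupp.onFinset (Fintype.piFinset (fun i => (z i).support)) (fun P => ∏ i, z i (P i)) (by
    intro P hP
    rw [Fintype.mem_piFinset]
    intro i
    rw [Finsupp.mem_support_iff]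
    intro h
    exact hP (Finset.prod_eq_zero (Finset.mem_univ i) h))

variable {T T' : Type} {k : ℕ}

theorem boxX_apply (z : Fin k → (T →₀ ℤ)) (P : Fin k → T) : boxX z P = ∏ i, z i (P i) := rfl

private theorem boxX_upd (inst : DecidableEq (Fin k)) (z : Fin k → (T →₀ ℤ)) (i : Fin k)
    (x : T →₀ ℤ) (P : Fin k → T) :
    ∏ j, (@Function.update _ _ inst z i x j) (P j) = x (P i) * ∏ j ∈ Finset.univ.erase i, z j (P j) := by
  rw [← Finset.mul_prod_erase Finset.univ _ (Finset.mem_univ i), Function.update_self]
  congr 1
  refine Finset.prod_congr rfl fun j hj => ?_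
  rw [Function.update_of_ne (Finset.ne_of_mem_erase hj)]

/-- the exterior product as a multilinear map -/
noncomputable def boxXM (k : ℕ) (T : Type) : MultilinearMap ℤ (fun _ : Fin k => T →₀ ℤ) ((Fin k → T) →₀ ℤ) where
  toFun := boxX
  map_update_add' := by
    intro inst z i x y
    ext P
    rw [Finsupp.add_apply, boxX_apply, boxX_apply, boxX_apply, boxX_upd, boxX_upd, boxX_upd, Finsupp.add_apply, add_mul]
  map_update_smul' := by
    intro inst z i c x
    ext P
    rw [Finsupp.smul_apply, boxX_apply, boxX_apply, boxX_upd, boxX_upd, Finsupp.smul_apply, smul_eq_mul, smul_eq_mul, mul_assoc]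

theorem boxXM_apply (z : Fin k → (T →₀ ℤ)) : boxXM k T z = boxX z := rfl

/-- the exterior product of points -/
theorem boxX_single (P : Fin k → T) : boxX (fun i => Finsupp.single (P i) (1 : ℤ)) = Finsupp.single P 1 := by
  classical
  ext Q
  rw [boxX_apply]
  by_cases h : P = Q
  · subst h
    rw [Finsupp.single_eq_same]
    refine Finset.prod_eq_one fun i _ => ?_
    rw [Finsupp.single_eq_same]
  · rw [Finsupp.single_eq_of_ne (fun h1 => h h1.symm)]
    obtain ⟨i, hi⟩ := Function.ne_iff.1 h
    refine Finset.prod_eq_zero (Finset.mem_univ i) ?_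
    rw [Finsupp.single_eq_of_ne (fun h1 => hi h1.symm)]

/-- a zero-cycle is a combination of points -/
theorem cyc_eq (z : T →₀ ℤ) : z = ∑ P ∈ z.support, z P • Finsupp.single P (1 : ℤ) := by
  conv_lhs => rw [← Finsupp.sum_single z]
  unfold Finsupp.sum
  refine Finset.sum_congr rfl fun P _ => ?_
  rw [Finsupp.smul_single, smul_eq_mul, mul_one]

/-- expansion in all slots -/
theorem boxX_sum (z : Fin k → (T →₀ ℤ)) (f : T → T' →₀ ℤ) :
    boxX (fun i => ∑ P ∈ (z i).support, z i P • f P) =
      ∑ P ∈ Fintype.piFinset (fun i => (z i).support), (∏ i, z i (P i)) • boxX (fun i => f (P i)) := by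
  classical
  rw [← boxXM_apply, (boxXM k T').map_sum_finset (fun i P => z i P • f P)]
  refine Finset.sum_congr rfl fun P _ => ?_
  rw [(boxXM k T').map_smul_univ (fun i => z i (P i)) (fun i => f (P i)), boxXM_apply]

/-- expansion in all slots but one -/
theorem boxX_update (z : Fin k → (T →₀ ℤ)) (i : Fin k) (w : T →₀ ℤ) (r0 : T) :
    boxX (Function.update z i w) =
      ∑ r ∈ Fintype.piFinset (fun j => if j = i then {r0} else (z j).support),
        (∏ j, if j = i then 1 else z j (r j)) • boxX (Function.update (fun j => Finsupp.single (r j) (1 : ℤ)) i w) := by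
  classical
  have e : Function.update z i w = fun j => ∑ r ∈ (if j = i then {r0} else (z j).support),
      (if j = i then w else z j r • Finsupp.single r (1 : ℤ)) := by
    funext j
    by_cases hj : j = i
    · subst hj
      rw [Function.update_self, if_pos rfl, Finset.sum_singleton, if_pos rfl]
    · rw [Function.update_of_ne hj, if_neg hj]
      simp only [if_neg hj]
      exact cyc_eq (z j)
  rw [e, ← boxXM_apply, (boxXM k T).map_sum_finset (fun j r => if j = i then w else z j r • Finsupp.single r (1 : ℤ))]
  refine Finset.sum_congr rfl fun r _ => ?_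
  have e2 : (fun j => if j = i then w else z j (r j) • Finsupp.single (r j) (1 : ℤ)) =
      fun j => (if j = i then (1 : ℤ) else z j (r j)) • Function.update (fun j => Finsupp.single (r j) (1 : ℤ)) i w j := by
    funext j
    by_cases hj : j = i
    · subst hj
      rw [if_pos rfl, if_pos rfl, Function.update_self, one_smul]
    · rw [if_neg hj, if_neg hj, Function.update_of_ne hj]
  rw [e2, (boxXM k T).map_smul_univ (fun j => if j = i then (1 : ℤ) else z j (r j))
    (Function.update (fun j => Finsupp.single (r j) (1 : ℤ)) i w), boxXM_apply]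

/-- the push-forward of one slot into `k` slots -/
theorem boxX_ins (R : Fin k → T) (i : Fin k) (w : T →₀ ℤ) :
    (boxX (fun _ : Fin 1 => w)).mapDomain (fun Q : Fin 1 → T => Function.update R i (Q 0)) =
      boxX (Function.update (fun j => Finsupp.single (R j) (1 : ℤ)) i w) := by
  classical
  have h1 : ∀ w : T →₀ ℤ, boxX (fun _ : Fin 1 => w) = w.mapDomain (fun r (_ : Fin 1) => r) := by
    intro w
    induction w using Finsupp.induction_linear with
    | zero =>
      ext P
      rw [boxX_apply]
      simp
    | add x y hx hy =>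
      rw [Finsupp.mapDomain_add, ← hx, ← hy]
      ext P
      simp [boxX_apply]
    | single r n =>
      rw [Finsupp.mapDomain_single]
      have h2 : (fun _ : Fin 1 => Finsupp.single r n) = fun _ : Fin 1 => n • Finsupp.single r (1 : ℤ) := by
        funext _
        rw [Finsupp.smul_single, smul_eq_mul, mul_one]
      rw [h2, ← boxXM_apply, (boxXM 1 T).map_smul_univ (fun _ => n) (fun _ => Finsupp.single r (1 : ℤ)), boxXM_apply,
        boxX_single (fun _ : Fin 1 => r)]
      simp
  rw [h1, ← Finsupp.mapDomain_comp]
  induction w using Finsupp.induction_linear with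
  | zero =>
    rw [Finsupp.mapDomain_zero]
    exact ((boxXM k T).map_coord_zero i (by rw [Function.update_self])).symm
  | add x y hx hy =>
    rw [Finsupp.mapDomain_add, hx, hy]
    exact ((boxXM k T).map_update_add _ i x y).symm
  | single r n =>
    rw [Finsupp.mapDomain_single]
    have h2 : Finsupp.single r n = n • Finsupp.single r (1 : ℤ) := by
      rw [Finsupp.smul_single, smul_eq_mul, mul_one]
    have h3 := (boxXM k T).map_update_smul (fun j => Finsupp.single (R j) (1 : ℤ)) i n (Finsupp.single r (1 : ℤ))
    rw [boxXM_apply, boxXM_apply] at h3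
    rw [h2, h3]
    have h4 : Function.update (fun j => Finsupp.single (R j) (1 : ℤ)) i (Finsupp.single r (1 : ℤ)) =
        fun j => Finsupp.single (Function.update R i r j) (1 : ℤ) := by
      funext j
      by_cases hj : j = i
      · subst hj; rw [Function.update_self, Function.update_self]
      · rw [Function.update_of_ne hj, Function.update_of_ne hj]
    rw [h4, boxX_single, Finsupp.smul_single, smul_eq_mul, mul_one]
    rfl

/-- one slot -/
theorem boxX_one (w : T →₀ ℤ) : boxX (fun _ : Fin 1 => w) = w.mapDomain (fun r (_ : Fin 1) => r) := by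
  ext P
  rw [boxX_apply]
  have h1 : P = (fun r (_ : Fin 1) => r) (P 0) := by
    funext i
    rw [Subsingleton.elim i 0]
  rw [h1, Finsupp.mapDomain_apply]
  · simp
  · intro a b h
    exact congrFun h 0

end SCX
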