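import Pool.Agent.H8.SC.Schoen
import Pool.Agent.H34.ES.Def
import Pool.Agent.H71.ER.Box

/-! # SC.Contr : one surface: from the Weierstrass fibration `{(β, P)}` to the surface with contracted zero section (complete)

`(β; P) ↦ P` maps `RatX k X` to `RatEq k (X.W 0)` and `altX` to `alt`. -/

namespace SCX

open ES H68.BB FX

variable {K : Type} [Field K] {s k : ℕ} {X : XD K s 1}

/-- the tuple of the points -/
def ctr {F : Type} (R : Fin k → Row s 1 F) : Fin k → Pt s F := fun i => (R i).P 0

theorem RatX_ctr {z : CycX k s 1 K} (hz : z ∈ RatX k X) : z.mapDomain ctr ∈ RatEq k (X.W 0) := by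
  unfold RatX at hz
  induction hz using AddSubgroup.closure_induction with
  | mem z hz =>
    obtain ⟨S, π, π', C, C', hS, hG, h1, h2, rfl⟩ := hz
    have e : ((cycX C - cycX C').mapDomain ctr : Cyc k s K) = cyc (C.map ctr) - cyc (C'.map ctr) := by
      have h3 : ∀ a b : CycX k s 1 K, (a - b).mapDomain ctr = (a.mapDomain ctr - b.mapDomain ctr : Cyc k s K) := fun a b =>
        map_sub (Finsupp.mapDomain.addMonoidHom ctr : CycX k s 1 K →+ Cyc k s K) a b
      rw [h3]
      exact congrArg₂ _ (cycX_push ctr C) (cycX_push ctr C')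
    rw [e]
    refine AddSubgroup.subset_closure ⟨S.map ctr, π, π', C.map ctr, C'.map ctr, ?_, ?_, ?_, ?_, rfl⟩
    · intro T hT i
      obtain ⟨Q, hQ, rfl⟩ := Multiset.mem_map.1 hT
      exact (hS Q hQ i).on 0
    · intro σ
      rw [Multiset.map_map]
      have e2 : ((fun (P : Fin k → Pt s (Om K)) i => (P i).map σ) ∘ ctr) = ctr ∘ fun (R : Fin k → Row s 1 (Om K)) i => (R i).map σ := rfl
      rw [e2, ← Multiset.map_map, hG σ]
    · rw [Multiset.rel_map]
      exact h1.mono fun Q _ q _ hq i => (hq i).P 0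
    · rw [Multiset.rel_map]
      exact h2.mono fun Q _ q _ hq i => (hq i).P 0
  | zero =>
    rw [Finsupp.mapDomain_zero]
    exact AddSubgroup.zero_mem _
  | add x y _ _ hx hy =>
    rw [Finsupp.mapDomain_add]
    exact AddSubgroup.add_mem _ hx hy
  | neg x _ hx =>
    have h3 : (-x).mapDomain ctr = (-x.mapDomain ctr : Cyc k s K) :=
      map_neg (Finsupp.mapDomain.addMonoidHom ctr : CycX k s 1 K →+ Cyc k s K) x
    rw [h3]
    exact AddSubgroup.neg_mem _ hx

theorem prodX_ctr (R : Fin k → Row s 1 K) : (prodX R).mapDomain ctr = prod (ctr R) := by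
  classical
  unfold prodX prod
  have h1 := map_sum (Finsupp.mapDomain.addMonoidHom ctr : CycX k s 1 K →+ Cyc k s K)
    (fun J : Finset (Fin k × Fin 1) => (-1 : ℤ) ^ J.card • ptX (rep J R)) Finset.univ
  refine h1.trans ?_
  refine Finset.sum_equiv (Equiv.finsetCongr (Equiv.prodUnique (Fin k) (Fin 1))) (fun _ => by simp) fun J _ => ?_
  rw [map_zsmul]
  have h2 : (Equiv.finsetCongr (Equiv.prodUnique (Fin k) (Fin 1)) J).card = J.card := by
    rw [Equiv.finsetCongr_apply, Finset.card_map]
  rw [h2]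
  congr 1
  unfold ptX ES.pt
  refine (Finsupp.mapDomain_single).trans ?_
  congr 1
  funext i
  show (if (i, (0 : Fin 1)) ∈ J then o s K else (R i).P 0) = if i ∈ Equiv.finsetCongr (Equiv.prodUnique (Fin k) (Fin 1)) J then o s K else (R i).P 0
  have h3 : (i ∈ Equiv.finsetCongr (Equiv.prodUnique (Fin k) (Fin 1)) J) ↔ (i, (0 : Fin 1)) ∈ J := by
    rw [Equiv.finsetCongr_apply, Finset.mem_map]
    constructor
    · rintro ⟨q, hq, rfl⟩
      have : q = (q.1, (0 : Fin 1)) := Prod.ext rfl (Subsingleton.elim _ _)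
      rw [this] at hq
      exact hq
    · intro h
      exact ⟨_, h, rfl⟩
  simp only [h3]

theorem altX_ctr (R : Fin k → Row s 1 K) : (altX R).mapDomain ctr = alt (ctr R) := by
  classical
  unfold altX alt
  have h1 := map_sum (Finsupp.mapDomain.addMonoidHom ctr : CycX k s 1 K →+ Cyc k s K)
    (fun σ : Equiv.Perm (Fin k) => ((Equiv.Perm.sign σ : ℤ)) ^ 1 • prodX (fun i => R (σ i))) Finset.univ
  refine h1.trans ?_
  refine Finset.sum_congr rfl fun σ _ => ?_
  rw [map_zsmul, pow_one]
  congr 1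
  exact prodX_ctr _

/-- the alternating products for the contracted surface -/
theorem alt_of_altX {P : Fin k → Pt s K} (hP : ∀ i, OnW (X.W 0) (P i)) {β : Fin s → K} (hβ : β ≠ 0) (hI : ∀ f ∈ X.I, ev f β = 0)
    (hA : ∀ R : Fin k → Row s 1 K, (∀ i, OnX X (R i)) → ∃ N : ℕ, 0 < N ∧ N • altX R ∈ RatX k X) :
    ∃ N : ℕ, 0 < N ∧ N • alt P ∈ RatEq k (X.W 0) := by
  classical
  let R : Fin k → Row s 1 K := fun i => ⟨if (P i).β = 0 then β else (P i).β, fun _ => P i⟩
  have hR : ∀ i, OnX X (R i) := by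
    intro i
    by_cases h : (P i).β = 0
    · refine ⟨?_, ?_, fun j => ?_, fun j => Or.inl h⟩
      · show (if (P i).β = 0 then β else (P i).β) ≠ 0
        rw [if_pos h]; exact hβ
      · intro f hf
        show ev f (if (P i).β = 0 then β else (P i).β) = 0
        rw [if_pos h]; exact hI f hf
      · rw [Subsingleton.elim j 0]; exact hP i
    · refine ⟨?_, ?_, fun j => ?_, fun j => Or.inr ⟨1, one_ne_zero, ?_⟩⟩
      · show (if (P i).β = 0 then β else (P i).β) ≠ 0
        rw [if_neg h]; exact h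
      · intro f hf
        show ev f (if (P i).β = 0 then β else (P i).β) = 0
        rw [if_neg h]; exact (hP i).2.1 f hf
      · rw [Subsingleton.elim j 0]; exact hP i
      · funext l
        show (P i).β l = 1 ^ X.v l * (if (P i).β = 0 then β else (P i).β) l
        rw [if_neg h, one_pow, one_mul]
  obtain ⟨N, hN, h1⟩ := hA R hR
  refine ⟨N, hN, ?_⟩
  have h2 := RatX_ctr h1
  have h3 : (N • altX R).mapDomain ctr = (N • (altX R).mapDomain ctr : Cyc k s K) :=
    map_nsmul (Finsupp.mapDomain.addMonoidHom ctr : CycX k s 1 K →+ Cyc k s K) N (altX R)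
  rw [h3, altX_ctr] at h2
  exact h2

end SCX
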