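import Pool.Agent.H8.SC.OrbP1
import Pool.Agent.H8.SC.Contr
import Pool.Agent.H79.FX.FinX
import Pool.Agent.H67.EX.MainX
import Pool.Agent.H99.RR.ZP1

/-! # SC.Main : the theorems on fibre products of elliptic surfaces, with all hypotheses discharged (complete) -/

namespace SCX

open ES H68.BB FX RR

variable {K : Type} [Field K] [IsAlgClosed K] [CharZero K] {s c d g k : ℕ}

/-- all tuples of points -/
theorem altX_all {X : XD K s c} (hX : X.Ok) (hc : 0 < c) (hB : SmC X.v X.I d g)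
    (hab : ∀ j, ∀ e e' : K, MvPolynomial.C e * X.a j ^ 3 - MvPolynomial.C e' * X.b j ^ 2 ∈ Ideal.span X.I → e = 0 ∧ e' = 0)
    (hk : (∑ j, X.n j) * d + g ≤ k) (R : Fin k → Row s c K) (hR : ∀ i, OnX X (R i)) :
    ∃ N : ℕ, 0 < N ∧ N • altX R ∈ RatX k X :=
  main_smX (main_x K) hX hc hB hab hk hR

/-- (1) every base curve -/
theorem sch_one {X : XD K s c} (hX : X.Ok) (hc : 0 < c) (hB : SmC X.v X.I d g)
    (hab : ∀ j, ∀ e e' : K, MvPolynomial.C e * X.a j ^ 3 - MvPolynomial.C e' * X.b j ^ 2 ∈ Ideal.span X.I → e = 0 ∧ e' = 0)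
    (hk : (∑ j, X.n j) * d + g ≤ k) {z : Fin k → (Row s c K →₀ ℤ)} (hz : ∀ i, ∀ R ∈ (z i).support, OnX X R)
    (h : ∀ i j, ∃ N : ℕ, 0 < N ∧ N • boxX (fun _ : Fin 1 => (z i).mapDomain (rho j)) ∈ RatX 1 X) :
    ∃ N : ℕ, 0 < N ∧ N • altzX z ∈ RatX k X :=
  altzX_mem hX (altX_all hX hc hB hab hk) hz h

private theorem hab_P1 {n : Fin c → ℕ} {a b : Fin c → MvPolynomial (Fin 2) K}
    (hab : ∀ j, ∀ e e' : K, e • a j ^ 3 = e' • b j ^ 2 → e = 0 ∧ e' = 0) :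
    ∀ j, ∀ e e' : K, MvPolynomial.C e * (XP n a b).a j ^ 3 - MvPolynomial.C e' * (XP n a b).b j ^ 2 ∈ Ideal.span (XP n a b).I →
      e = 0 ∧ e' = 0 := by
  intro j e e' h
  have h1 : Ideal.span (XP n a b).I = ⊥ := Ideal.span_empty
  rw [h1, Ideal.mem_bot, sub_eq_zero, ← MvPolynomial.smul_eq_C_mul, ← MvPolynomial.smul_eq_C_mul] at h
  exact hab j e e' h

theorem XP_ok {n : Fin c → ℕ} {a b : Fin c → MvPolynomial (Fin 2) K} (hn : ∀ j, 0 < n j) (ha : ∀ j, (a j).IsHomogeneous (4 * n j))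
    (hb : ∀ j, (b j).IsHomogeneous (6 * n j)) : (XP n a b).Ok :=
  ⟨fun _ => Nat.one_pos, hn, fun f hf => absurd hf (Set.notMem_empty f), fun j => ha j, fun j => hb j⟩

theorem altX_P1 {n : Fin c → ℕ} {a b : Fin c → MvPolynomial (Fin 2) K} (hn : ∀ j, 0 < n j) (ha : ∀ j, (a j).IsHomogeneous (4 * n j))
    (hb : ∀ j, (b j).IsHomogeneous (6 * n j)) (hab : ∀ j, ∀ e e' : K, e • a j ^ 3 = e' • b j ^ 2 → e = 0 ∧ e' = 0)
    (hc : 0 < c) (hk : ∑ j, n j ≤ k) (R : Fin k → Row 2 c K) (hR : ∀ i, OnX (XP n a b) (R i)) :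
    ∃ N : ℕ, 0 < N ∧ N • altX R ∈ RatX k (XP n a b) :=
  altX_all (XP_ok hn ha hb) hc (smC_P1 : SmC (XP n a b).v (XP n a b).I 1 0) (hab_P1 hab) (by rw [mul_one, add_zero]; exact hk) R hR

/-- (2) base `ℙ¹`, one surface or two rational surfaces: all zero-cycles of degree zero -/
theorem sch_two {n : Fin c → ℕ} {a b : Fin c → MvPolynomial (Fin 2) K} (hn : ∀ j, 0 < n j) (ha : ∀ j, (a j).IsHomogeneous (4 * n j))
    (hb : ∀ j, (b j).IsHomogeneous (6 * n j)) (hab : ∀ j, ∀ e e' : K, e • a j ^ 3 = e' • b j ^ 2 → e = 0 ∧ e' = 0)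
    (hk : ∑ j, n j ≤ k) (hc : c = 1 ∨ (c = 2 ∧ ∀ j, n j = 1)) {z : Fin k → (Row 2 c K →₀ ℤ)}
    (hz : ∀ i, ∀ R ∈ (z i).support, OnX (XP n a b) R) (h0 : ∀ i, ((z i).sum fun _ m => m) = 0) :
    ∃ N : ℕ, 0 < N ∧ N • altzX z ∈ RatX k (XP n a b) := by
  have hc' : 0 < c := by rcases hc with h | ⟨h, _⟩ <;> omega
  refine altzX_P1 (XP_ok hn ha hb) hc (fun j hj R hR => ?_) (altX_P1 hn ha hb hab hc' hk) hz h0
  refine altX_P1 (n := fun _ : Fin 1 => n j) (a := fun _ => a j) (b := fun _ => b j) (fun _ => hn j) (fun _ => ha j) (fun _ => hb j)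
    (fun _ => hab j) Nat.one_pos ?_ R hR
  rw [Finset.univ_unique, Finset.sum_singleton, hj]

/-- (3) base `ℙ¹`: the orbit sums -/
theorem sch_three {n : Fin c → ℕ} {a b : Fin c → MvPolynomial (Fin 2) K} (hn : ∀ j, 0 < n j) (ha : ∀ j, (a j).IsHomogeneous (4 * n j))
    (hb : ∀ j, (b j).IsHomogeneous (6 * n j)) (hab : ∀ j, ∀ e e' : K, e • a j ^ 3 = e' • b j ^ 2 → e = 0 ∧ e' = 0)
    (hc : 0 < c) (hk : ∑ j, n j ≤ k) {R : Fin k → Row 2 c K} (hR : ∀ i, OnX (XP n a b) (R i)) {β0 : Fin 2 → K} (hβ0 : β0 ≠ 0) :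
    ∃ N : ℕ, 0 < N ∧ N • (orbX R - (2 ^ (k * c - 1) * k.factorial) • ptX (fun _ => sec c β0)) ∈ RatX k (XP n a b) := by
  refine orbX_P1 (XP_ok hn ha hb) ?_ hc hR (altX_P1 hn ha hb hab hc hk R hR) hβ0
  have h1 : n ⟨0, hc⟩ ≤ ∑ j, n j := Finset.single_le_sum (fun _ _ => Nat.zero_le _) (Finset.mem_univ _)
  have h2 := hn ⟨0, hc⟩
  omega

end SCX
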