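import Pool.Agent.H8.SC.Brk

/-! # SC.AltZ : from tuples of points of `X` to zero-cycles (complete)

`tor G` = the elements with a positive multiple in `G`; `nul X` = the zero-cycles on `X` which are torsion in the Chow group.
`altzX_mem`: if all `N • altX R ∈ RatX k X`, then `altzX z ∈ tor (RatX k X)` for all zero-cycles `z_i` on `X` with `(rho j)_* z_i` torsion. -/

namespace SCX

open ES H68.BB FX

section
variable {A B : Type} [AddCommGroup A] [AddCommGroup B]

/-- the elements with a positive multiple in `G` -/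
def tor (G : AddSubgroup A) : AddSubgroup A where
  carrier := {x | ∃ N : ℕ, 0 < N ∧ N • x ∈ G}
  zero_mem' := ⟨1, one_pos, by rw [smul_zero]; exact G.zero_mem⟩
  add_mem' := by
    rintro x y ⟨N, hN, hx⟩ ⟨M, hM, hy⟩
    refine ⟨N * M, Nat.mul_pos hN hM, ?_⟩
    rw [smul_add]
    refine G.add_mem ?_ ?_
    · rw [mul_comm, mul_smul]
      exact G.nsmul_mem hx M
    · rw [mul_smul]
      exact G.nsmul_mem hy N
  neg_mem' := by
    rintro x ⟨N, hN, hx⟩
    exact ⟨N, hN, by rw [smul_neg]; exact G.neg_mem hx⟩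

theorem mem_tor {G : AddSubgroup A} {x : A} : x ∈ tor G ↔ ∃ N : ℕ, 0 < N ∧ N • x ∈ G := Iff.rfl

theorem le_tor (G : AddSubgroup A) : G ≤ tor G := fun x hx => ⟨1, one_pos, by rwa [one_smul]⟩

theorem tor_map {G : AddSubgroup A} {H : AddSubgroup B} (f : A →+ B) (h : ∀ x ∈ G, f x ∈ H) {x : A} (hx : x ∈ tor G) :
    f x ∈ tor H := by
  obtain ⟨N, hN, h1⟩ := hx
  exact ⟨N, hN, by rw [← map_nsmul]; exact h _ h1⟩

theorem tor_of_nsmul {G : AddSubgroup A} {x : A} {N : ℕ} (hN : 0 < N) (h : N • x ∈ tor G) : x ∈ tor G := by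
  obtain ⟨M, hM, h1⟩ := h
  exact ⟨M * N, Nat.mul_pos hM hN, by rw [mul_smul]; exact h1⟩

end

variable {K : Type} [Field K] {s c k : ℕ}

/-- the zero-cycles on `X` which are torsion modulo rational equivalence -/
noncomputable def nul (X : XD K s c) : AddSubgroup (Row s c K →₀ ℤ) :=
  (tor (RatX 1 X)).comap (Finsupp.mapDomain.addMonoidHom fun (r : Row s c K) (_ : Fin 1) => r)

variable {X : XD K s c}

theorem mem_nul {z : Row s c K →₀ ℤ} : z ∈ nul X ↔ boxX (fun _ : Fin 1 => z) ∈ tor (RatX 1 X) := by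
  rw [boxX_one]
  exact Iff.rfl

/-- the zero-cycles supported on `X` -/
noncomputable def OnZ (X : XD K s c) : Submodule ℤ (Row s c K →₀ ℤ) := Finsupp.supported ℤ ℤ {R | OnX X R}

theorem mem_OnZ {z : Row s c K →₀ ℤ} : z ∈ OnZ X ↔ ∀ R ∈ z.support, OnX X R := by
  unfold OnZ
  rw [Finsupp.mem_supported]
  exact ⟨fun h R hR => h (Finset.mem_coe.2 hR), fun h R hR => h R (Finset.mem_coe.1 hR)⟩

theorem single_OnZ {R : Row s c K} (h : OnX X R) (n : ℤ) : Finsupp.single R n ∈ OnZ X :=
  Finsupp.single_mem_supported ℤ n h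

theorem brkz_OnZ (hX : X.Ok) {z : Row s c K →₀ ℤ} (hz : z ∈ OnZ X) : brkz z ∈ OnZ X := by
  unfold brkz
  refine Submodule.sum_mem _ fun R hR => Submodule.smul_mem _ _ ?_
  unfold brk
  exact Submodule.sum_mem _ fun J _ => Submodule.smul_mem _ _ (single_OnZ (rJ_onX hX J (mem_OnZ.1 hz R hR)) 1)

/-- a torsion cycle in one slot -/
theorem boxX_nul {z : Fin k → (Row s c K →₀ ℤ)} (i : Fin k) (hz : ∀ j, j ≠ i → z j ∈ OnZ X) {w : Row s c K →₀ ℤ} (hw : w ∈ nul X) :
    boxX (Function.update z i w) ∈ tor (RatX k X) := by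
  classical
  obtain ⟨N, hN, h⟩ := mem_nul.1 hw
  refine ⟨N, hN, ?_⟩
  have h1 : boxX (fun _ : Fin 1 => N • w) = N • boxX (fun _ : Fin 1 => w) := by
    rw [boxX_one, boxX_one]
    exact map_nsmul (Finsupp.mapDomain.addMonoidHom fun (r : Row s c K) (_ : Fin 1) => r) N w
  rw [← h1] at h
  have h2 := boxX_slot (z := z) i (fun j hj => mem_OnZ.1 (hz j hj)) h
  have h3 := (boxXM k (Row s c K)).map_update_smul z i (N : ℤ) w
  rw [boxXM_apply, boxXM_apply, natCast_zsmul, natCast_zsmul] at h3
  rwa [h3] at h2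

/-- congruence modulo torsion cycles -/
theorem boxX_congr {z z' : Fin k → (Row s c K →₀ ℤ)} (hz : ∀ i, z i ∈ OnZ X) (hz' : ∀ i, z' i ∈ OnZ X)
    (h : ∀ i, z i - z' i ∈ nul X) : boxX z - boxX z' ∈ tor (RatX k X) := by
  classical
  have key : ∀ S : Finset (Fin k), boxX z - boxX (fun i => if i ∈ S then z' i else z i) ∈ tor (RatX k X) := by
    intro S
    induction S using Finset.induction_on with
    | empty =>
      simp only [Finset.notMem_empty, if_false]
      rw [sub_self]
      exact AddSubgroup.zero_mem _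
    | insert a S ha ih =>
      set u : Fin k → (Row s c K →₀ ℤ) := fun i => if i ∈ S then z' i else z i with hu
      have e1 : (fun i => if i ∈ insert a S then z' i else z i) = Function.update u a (z' a) := by
        funext i
        by_cases hi : i = a
        · subst hi
          rw [Function.update_self, if_pos (Finset.mem_insert_self _ _)]
        · rw [Function.update_of_ne hi, hu]
          simp only [Finset.mem_insert, hi, false_or]
      have e2 : u = Function.update u a (z a) := by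
        funext i
        by_cases hi : i = a
        · subst hi
          rw [Function.update_self, hu]
          simp only [if_neg ha]
        · rw [Function.update_of_ne hi]
      have h1 := boxX_nul (X := X) (z := u) a (fun j _ => by rw [hu]; dsimp only; split_ifs; exacts [hz' j, hz j]) (h a)
      have h2 := (boxXM k (Row s c K)).map_update_sub u a (z a) (z' a)
      rw [boxXM_apply, boxXM_apply, boxXM_apply, ← e2] at h2
      rw [h2] at h1
      rw [e1]
      have h3 := AddSubgroup.add_mem _ ih h1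
      rwa [sub_add_sub_cancel] at h3
  have h1 := key Finset.univ
  simp only [Finset.mem_univ, if_true] at h1
  exact h1

/-- `∑_σ sgn(σ)^c z_σ(0) × ... × z_σ(k-1)` -/
noncomputable def altzX (z : Fin k → (Row s c K →₀ ℤ)) : CycX k s c K :=
  ∑ σ : Equiv.Perm (Fin k), ((Equiv.Perm.sign σ : ℤ)) ^ c • boxX (fun i => z (σ i))

/-- multilinear expansion -/
theorem altzX_brkz (z : Fin k → (Row s c K →₀ ℤ)) :
    altzX (fun i => brkz (z i)) = ∑ P ∈ Fintype.piFinset (fun i => (z i).support), (∏ i, z i (P i)) • altX P := by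
  classical
  have hbox : ∀ σ : Equiv.Perm (Fin k), boxX (fun i => brkz (z (σ i))) =
      ∑ P ∈ Fintype.piFinset (fun i => (z i).support), (∏ i, z i (P i)) • prodX (fun i => P (σ i)) := by
    intro σ
    have h0 := boxX_sum (fun i => z (σ i)) (brk (K := K) (s := s) (c := c))
    refine Eq.trans (congrArg boxX (funext fun i => rfl)) (h0.trans ?_)
    refine Finset.sum_bij' (fun r _ => fun i => r (σ.symm i)) (fun P _ => fun i => P (σ i)) ?_ ?_ ?_ ?_ ?_
    · intro r hr
      rw [Fintype.mem_piFinset] at hr ⊢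
      intro i
      have := hr (σ.symm i)
      rwa [Equiv.apply_symm_apply] at this
    · intro P hP
      rw [Fintype.mem_piFinset] at hP ⊢
      intro i
      exact hP (σ i)
    · intro r _
      funext i
      show r (σ.symm (σ i)) = r i
      rw [Equiv.symm_apply_apply]
    · intro P _
      funext i
      show P (σ (σ.symm i)) = P i
      rw [Equiv.apply_symm_apply]
    · intro r _
      rw [prodX_eq]
      congr 1
      · rw [← Equiv.prod_comp σ (fun i => z i (r (σ.symm i)))]
        refine Finset.prod_congr rfl fun i _ => ?_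
        rw [Equiv.symm_apply_apply]
      · congr 1
        funext i
        show brk (r i) = brk (r (σ.symm (σ i)))
        rw [Equiv.symm_apply_apply]
  unfold altzX altX
  simp only [hbox, Finset.smul_sum]
  rw [Finset.sum_comm]
  refine Finset.sum_congr rfl fun P _ => ?_
  refine Finset.sum_congr rfl fun σ _ => ?_
  rw [smul_comm]

/-- a zero-cycle whose images under the maps `rho j` are torsion is equal to `⟨z⟩` up to torsion -/
theorem sub_brkz (hX : X.Ok) {z : Row s c K →₀ ℤ} (h : ∀ j, z.mapDomain (rho j) ∈ nul X) : z - brkz z ∈ nul X := by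
  classical
  rw [brkz_eq, ← Finset.add_sum_erase Finset.univ _ (Finset.mem_univ (∅ : Finset (Fin c))), rJ_empty, Finset.card_empty,
    pow_zero, one_smul, Finsupp.mapDomain_id, ← sub_sub, sub_self, zero_sub]
  refine AddSubgroup.neg_mem _ (AddSubgroup.sum_mem _ fun J hJ => AddSubgroup.zsmul_mem _ ?_ _)
  obtain ⟨j, hj⟩ := Finset.nonempty_iff_ne_empty.2 (Finset.ne_of_mem_erase hJ)
  rw [rJ_rho hj, Finsupp.mapDomain_comp, mem_nul]
  obtain ⟨N, hN, h1⟩ := mem_nul.1 (h j)
  refine ⟨N, hN, ?_⟩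
  have e : ∀ w : Row s c K →₀ ℤ, N • boxX (fun _ : Fin 1 => w) = boxX (fun _ : Fin 1 => N • w) := by
    intro w
    rw [boxX_one, boxX_one]
    exact (map_nsmul (Finsupp.mapDomain.addMonoidHom fun (r : Row s c K) (_ : Fin 1) => r) N w).symm
  rw [e] at h1 ⊢
  have h2 := rJ_rat hX J h1
  have h3 := map_nsmul (Finsupp.mapDomain.addMonoidHom (rJ J : Row s c K → Row s c K) : (Row s c K →₀ ℤ) →+ (Row s c K →₀ ℤ)) N
    (z.mapDomain (rho j))
  have h4 : (N • z.mapDomain (rho j)).mapDomain (rJ J) = N • (z.mapDomain (rho j)).mapDomain (rJ J) := h3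
  rwa [h4] at h2

/-- from tuples of points to zero-cycles -/
theorem altzX_mem (hX : X.Ok) (hA : ∀ R : Fin k → Row s c K, (∀ i, OnX X (R i)) → ∃ N : ℕ, 0 < N ∧ N • altX R ∈ RatX k X)
    {z : Fin k → (Row s c K →₀ ℤ)} (hz : ∀ i, ∀ R ∈ (z i).support, OnX X R)
    (h : ∀ i j, ∃ N : ℕ, 0 < N ∧ N • boxX (fun _ : Fin 1 => (z i).mapDomain (rho j)) ∈ RatX 1 X) :
    ∃ N : ℕ, 0 < N ∧ N • altzX z ∈ RatX k X := by
  classical
  rw [← mem_tor]
  have hz' : ∀ i, z i ∈ OnZ X := fun i => mem_OnZ.2 (hz i)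
  have h1 : altzX z - altzX (fun i => brkz (z i)) ∈ tor (RatX k X) := by
    unfold altzX
    rw [← Finset.sum_sub_distrib]
    refine AddSubgroup.sum_mem _ fun σ _ => ?_
    rw [← smul_sub]
    exact AddSubgroup.zsmul_mem _ (boxX_congr (fun i => hz' _) (fun i => brkz_OnZ hX (hz' _))
      (fun i => sub_brkz hX fun j => mem_nul.2 (h (σ i) j))) _
  have h2 : altzX (fun i => brkz (z i)) ∈ tor (RatX k X) := by
    rw [altzX_brkz]
    refine AddSubgroup.sum_mem _ fun P hP => AddSubgroup.zsmul_mem _ (hA P fun i => ?_) _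
    exact hz i _ (Fintype.mem_piFinset.1 hP i)
  have h3 := AddSubgroup.add_mem _ h1 h2
  rwa [sub_add_cancel] at h3

end SCX
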