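import Pool.Agent.H8.SC.AltZ
import Pool.Agent.H71.ER.Orb1

/-! # SC.NegX : `[.., (β; .., P, ..), ..] + [.., (β; .., -P, ..), ..] = 2 [.., (β; .., o, ..), ..]` modulo `RatX k X` (complete)

The family is `ES.neg_family` in `Pool/Agent/H71/ER/Orb1.lean`. -/

namespace SCX

open ES H68.BB FX Polynomial
open H67.KH (mem_of_root mem_of_cubic rd_of_mem rd_cst sigma_cst sigma_tt roots_rd roots_sigma)

variable {K : Type} [Field K] [IsAlgClosed K] {s c k : ℕ} {W : Wm K s}

/-- the family of the points with the same `x` -/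
private theorem neg_familyX (hW : W.Ok) {Q : Pt s K} (hQ : OnW W Q) : ∃ (A : Multiset (Pt s (Om K))) (π1 π0 : Place K (Om K)),
    (∀ q ∈ A, OnW W q) ∧ (∀ q ∈ A, q.β = fun i => algebraMap K (Om K) (Q.β i)) ∧ (∀ σ : Om K ≃ₐ[RatFunc K] Om K, A.map (Pt.map σ) = A) ∧
      Multiset.Rel (Sp W π1) A {Q, Q.neg} ∧ Multiset.Rel (Sp W π0) A {o s K, o s K} := by
  obtain ⟨π1, π0, r1, n0, r0, -⟩ := two_places K
  set T0 : Fin s → Om K := fun i => algebraMap K (Om K) (Q.β i) with hT0
  set x := algebraMap K (Om K) Q.x - 1 + (tt K)⁻¹ with hxdef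
  have hxV : x ∉ π0.V := by
    intro h
    apply n0
    have e : (tt K)⁻¹ = x - (algebraMap K (Om K) Q.x - 1) := by rw [hxdef]; ring
    rw [e]
    exact sub_mem h (sub_mem (rd_cst π0 Q.x).mem π0.V.one_mem)
  have hx0 : x ≠ 0 := by
    intro h
    exact hxV (by rw [h]; exact π0.V.zero_mem)
  set z := x ^ 3 - 3 * ev W.a T0 * x - 2 * ev W.b T0 with hz
  set p : (Om K)[X] := X ^ 2 - C z with hp
  have hpm : p.Monic := monic_X_pow_sub_C _ (by norm_num)
  have hp0 : p ≠ 0 := hpm.ne_zero
  have hpd : p.natDegree = 2 := natDegree_X_pow_sub_C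
  set f : Om K → Pt s (Om K) := fun y => ⟨T0, x, y⟩ with hf
  have hroot : ∀ y ∈ p.roots, y ^ 2 = z := by
    intro y hy
    rw [mem_roots hp0, IsRoot.def, hp, eval_sub, eval_pow, eval_X, eval_C, sub_eq_zero] at hy
    exact hy
  have hI : ∀ g ∈ W.I, ev g T0 = 0 := by
    intro g hg
    rw [hT0, ev_cst, hQ.2.1 g hg, map_zero]
  have hon : ∀ y ∈ p.roots, OnW W (⟨T0, x, y⟩ : Pt s (Om K)) := fun y hy =>
    ⟨Or.inr (Or.inl hx0), hI, hroot y hy⟩
  refine ⟨p.roots.map f, π1, π0, ?_, ?_, ?_, ?_, ?_⟩
  · intro s hs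
    obtain ⟨y, hy, rfl⟩ := Multiset.mem_map.1 hs
    exact hon y hy
  · intro s hs
    obtain ⟨y, hy, rfl⟩ := Multiset.mem_map.1 hs
    rfl
  · intro σ
    have hσx : σ x = x := by
      rw [hxdef, map_add, map_sub, map_one, map_inv₀, sigma_tt, sigma_cst]
    have hσ0 : (fun i => σ (T0 i)) = T0 := funext fun i => sigma_cst σ _
    have hσz : σ z = z := by
      rw [hz, map_sub, map_sub, map_mul, map_mul, map_mul, map_pow, sigma_ev, sigma_ev, hσx, hσ0,
        map_ofNat, map_ofNat]
    have hσp : p.map (σ : Om K →+* Om K) = p := by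
      rw [hp, Polynomial.map_sub, Polynomial.map_pow, map_X, map_C]
      congr 2
    have h1 : (p.roots.map f).map (Pt.map σ) = (p.roots.map σ).map f := by
      rw [Multiset.map_map, Multiset.map_map]
      refine Multiset.map_congr rfl fun y _ => ?_
      simp only [hf, Function.comp_apply]
      show ES.Pt.map (⇑σ) (⟨T0, x, y⟩ : Pt s (Om K)) = _
      unfold ES.Pt.map
      simp only [hσx, hσ0]
    rw [h1, roots_sigma, hσp]
  · have hx1 : Rd π1.V π1.φ x Q.x := by
      have h := ((rd_cst π1 Q.x).sub Rd.one).add r1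
      have e : Q.x - 1 + 1 = Q.x := by ring
      rwa [e] at h
    have hT1 : ∀ i, Rd π1.V π1.φ (T0 i) (Q.β i) := fun i => rd_cst π1 _
    have hz1 : Rd π1.V π1.φ z (Q.y ^ 2) := by
      rw [hQ.2.2]
      exact ((hx1.pow 3).sub ((Rd.three.mul (rd_ev W.a hT1)).mul hx1)).sub (Rd.two.mul (rd_ev W.b hT1))
    have hp'm : (X ^ 2 - C (Q.y ^ 2) : K[X]).Monic := monic_X_pow_sub_C _ (by norm_num)
    have hp'r : (X ^ 2 - C (Q.y ^ 2) : K[X]).roots = {Q.y, -Q.y} := by
      have e : (X ^ 2 - C (Q.y ^ 2) : K[X]) = (X - C Q.y) * (X - C (-Q.y)) := by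
        rw [map_neg, map_pow]; ring
      rw [e, roots_mul (mul_ne_zero (X_sub_C_ne_zero _) (X_sub_C_ne_zero _)), roots_X_sub_C,
        roots_X_sub_C]
      rfl
    have hrel : Multiset.Rel (Rd π1.V π1.φ) p.roots (X ^ 2 - C (Q.y ^ 2) : K[X]).roots := by
      refine roots_rd hp'm.ne_zero ?_ ?_
      · intro i
        rw [hp, coeff_sub, coeff_sub, coeff_X_pow, coeff_X_pow, coeff_C, coeff_C]
        refine Rd.sub ?_ ?_
        · split_ifs
          · exact Rd.one
          · exact Rd.zero
        · split_ifs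
          · exact hz1
          · exact Rd.zero
      · rw [hpd, natDegree_X_pow_sub_C]
    rw [hp'r] at hrel
    have e3 : ({Q, Q.neg} : Multiset (Pt s K)) =
        ({Q.y, -Q.y} : Multiset K).map (fun y => (⟨Q.β, Q.x, y⟩ : Pt s K)) := by
      simp only [Multiset.insert_eq_cons, Multiset.map_cons, Multiset.map_singleton]
      rfl
    rw [e3, Multiset.rel_map]
    refine hrel.mono fun y _ y' hy' hyy => ?_
    refine Sp_fin ?_ hT1 hx1 hyy
    have hy2 : y' = Q.y ∨ y' = -Q.y := by simpa using hy'
    rcases hQ.1 with h | h | h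
    · exact Or.inl h
    · exact Or.inr (Or.inl h)
    · refine Or.inr (Or.inr ?_)
      show y' ≠ 0
      rcases hy2 with e | e
      · rw [e]; exact h
      · rw [e]; exact neg_ne_zero.2 h
  · have hcard : Multiset.card p.roots = 2 := by
      rw [IsAlgClosed.card_roots_eq_natDegree, hpd]
    obtain ⟨y1, y2, hy⟩ := Multiset.card_eq_two.1 hcard
    rw [hy]
    simp only [Multiset.insert_eq_cons, Multiset.map_cons, Multiset.map_singleton]
    have h1 : y1 ∈ p.roots := by rw [hy]; simp
    have h2 : y2 ∈ p.roots := by rw [hy]; simp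
    refine Multiset.Rel.cons ?_ (Multiset.Rel.cons ?_ Multiset.Rel.zero)
    · exact Sp_inf hW (hon y1 h1) (fun _ => (rd_cst π0 _).mem) hxV
    · exact Sp_inf hW (hon y2 h2) (fun _ => (rd_cst π0 _).mem) hxV

omit [IsAlgClosed K] in
private theorem map_setP (σ : Om K ≃ₐ[RatFunc K] Om K) (R : Fin k → Row s c K) (i : Fin k) (j : Fin c) (Q : Pt s (Om K)) :
    (fun l => (setP (fun l => (R l).map (algebraMap K (Om K))) i j Q l).map σ) =
      setP (fun l => (R l).map (algebraMap K (Om K))) i j (Q.map σ) := by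
  funext l
  unfold setP
  by_cases hl : l = i
  · subst hl
    rw [Function.update_self, Function.update_self]
    refine Row.ext ?_ ?_
    · exact funext fun i => sigma_cst σ _
    · funext j'
      show (Function.update ((R l).map (algebraMap K (Om K))).P j Q j').map σ =
        Function.update ((R l).map (algebraMap K (Om K))).P j (Q.map σ) j'
      by_cases hj : j' = j
      · subst hj
        rw [Function.update_self, Function.update_self]
      · rw [Function.update_of_ne hj, Function.update_of_ne hj]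
        exact map_cst σ ((R l).P j')
  · rw [Function.update_of_ne hl, Function.update_of_ne hl]
    exact map_cstR σ (R l)

/-- the class of a tuple of rows modulo rational equivalence -/
noncomputable def cqX (X : XD K s c) (R : Fin k → Row s c K) : CycX k s c K ⧸ RatX k X := QuotientAddGroup.mk (ptX R)

variable {X : XD K s c}

omit [IsAlgClosed K] in
theorem mk_cycXq (S : Multiset (Fin k → Row s c K)) :
    (QuotientAddGroup.mk (cycX S) : CycX k s c K ⧸ RatX k X) = (S.map (cqX X)).sum := by
  have h := map_multiset_sum (QuotientAddGroup.mk' (RatX k X)) (S.map ptX)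
  rw [Multiset.map_map] at h
  exact h

omit [IsAlgClosed K] in
/-- relations in one point modulo `RatX` -/
theorem slotqX {R : Fin k → Row s c K} (hR : ∀ l, OnX X (R l)) (i : Fin k) (j : Fin c) {A : Multiset (Pt s (Om K))}
    {B B' : Multiset (Pt s K)} {π π' : Place K (Om K)} (hA : ∀ Q ∈ A, OnW (X.W j) Q)
    (hov : ∀ Q ∈ A, Over X.v (fun l => algebraMap K (Om K) ((R i).β l)) Q.β)
    (hG : ∀ σ : Om K ≃ₐ[RatFunc K] Om K, A.map (Pt.map σ) = A) (h : Multiset.Rel (Sp (X.W j) π) A B)
    (h' : Multiset.Rel (Sp (X.W j) π') A B') :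
    (B.map (fun q => cqX X (setP R i j q))).sum = (B'.map (fun q => cqX X (setP R i j q))).sum := by
  have hsp : ∀ (π : Place K (Om K)) (Q : Pt s (Om K)) (q : Pt s K), Sp (X.W j) π Q q →
      SpX X π (setP (fun l => (R l).map (algebraMap K (Om K))) i j Q) (setP R i j q) := by
    intro π Q q hq l
    unfold setP
    by_cases hl : l = i
    · subst hl
      rw [Function.update_self, Function.update_self]
      refine ⟨(SpR_cst π (hR l)).β, fun j' => ?_⟩
      show Sp (X.W j') π (Function.update ((R l).map (algebraMap K (Om K))).P j Q j') (Function.update (R l).P j q j')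
      by_cases hj : j' = j
      · subst hj
        rw [Function.update_self, Function.update_self]
        exact hq
      · rw [Function.update_of_ne hj, Function.update_of_ne hj]
        exact (SpR_cst π (hR l)).P j'
    · rw [Function.update_of_ne hl, Function.update_of_ne hl]
      exact SpR_cst π (hR l)
  have e1 : (B.map (fun q => cqX X (setP R i j q))).sum =
      (QuotientAddGroup.mk (cycX (B.map (fun q => setP R i j q))) : CycX k s c K ⧸ RatX k X) := by
    rw [mk_cycXq, Multiset.map_map]
    rfl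
  have e2 : (B'.map (fun q => cqX X (setP R i j q))).sum =
      (QuotientAddGroup.mk (cycX (B'.map (fun q => setP R i j q))) : CycX k s c K ⧸ RatX k X) := by
    rw [mk_cycXq, Multiset.map_map]
    rfl
  rw [e1, e2, QuotientAddGroup.eq]
  refine AddSubgroup.subset_closure ⟨A.map (fun Q => setP (fun l => (R l).map (algebraMap K (Om K))) i j Q), π', π,
    B'.map (fun q => setP R i j q), B.map (fun q => setP R i j q), ?_, ?_, ?_, ?_, ?_⟩
  · intro T hT l
    obtain ⟨Q, hQ, rfl⟩ := Multiset.mem_map.1 hT
    unfold setP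
    by_cases hl : l = i
    · subst hl
      rw [Function.update_self]
      have h1 := OnX_cst (hR l)
      refine ⟨h1.ne, h1.I, fun j' => ?_, fun j' => ?_⟩
      · show OnW (X.W j') (Function.update ((R l).map (algebraMap K (Om K))).P j Q j')
        by_cases hj : j' = j
        · subst hj
          rw [Function.update_self]
          exact hA Q hQ
        · rw [Function.update_of_ne hj]
          exact h1.on j'
      · show Over X.v ((R l).map (algebraMap K (Om K))).β (Function.update ((R l).map (algebraMap K (Om K))).P j Q j').β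
        by_cases hj : j' = j
        · subst hj
          rw [Function.update_self]
          exact hov Q hQ
        · rw [Function.update_of_ne hj]
          exact h1.ov j'
    · rw [Function.update_of_ne hl]
      exact OnX_cst (hR l)
  · intro σ
    rw [Multiset.map_map]
    have e : ((fun (P : Fin k → Row s c (Om K)) l => (P l).map σ) ∘ fun Q => setP (fun l => (R l).map (algebraMap K (Om K))) i j Q) =
        (fun Q => setP (fun l => (R l).map (algebraMap K (Om K))) i j Q) ∘ Pt.map σ := by
      funext Q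
      exact map_setP σ R i j Q
    rw [e, ← Multiset.map_map, hG σ]
  · rw [Multiset.rel_map]
    exact h'.mono fun Q _ q _ hq => hsp π' Q q hq
  · rw [Multiset.rel_map]
    exact h.mono fun Q _ q _ hq => hsp π Q q hq
  · rw [neg_add_eq_sub]

/-- `P` and `-P` -/
theorem negqX (hX : X.Ok) {R : Fin k → Row s c K} (hR : ∀ l, OnX X (R l)) (i : Fin k) (j : Fin c) {Q : Pt s K}
    (hQ : OnW (X.W j) Q) (hov : Over X.v (R i).β Q.β) :
    cqX X (setP R i j Q) + cqX X (setP R i j Q.neg) = 2 • cqX X (setP R i j (o s K)) := by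
  obtain ⟨A, π1, π0, h1, h0, h2, h3, h4⟩ := neg_familyX (hX.W j) hQ
  have hov' : ∀ q ∈ A, Over X.v (fun l => algebraMap K (Om K) ((R i).β l)) q.β := by
    intro q hq
    rw [h0 q hq]
    rcases hov with h | ⟨d, hd, h⟩
    · left
      funext l
      rw [h, Pi.zero_apply, map_zero]
      rfl
    · right
      refine ⟨algebraMap K (Om K) d, (map_ne_zero_iff _ (algebraMap K (Om K)).injective).2 hd, ?_⟩
      funext l
      rw [h, map_mul, map_pow]
  have h := slotqX hR i j h1 hov' h2 h3 h4
  simp only [Multiset.insert_eq_cons, Multiset.map_cons, Multiset.map_singleton, Multiset.sum_cons,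
    Multiset.sum_singleton] at h
  rw [h, two_nsmul]

end SCX
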