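import Pool.Agent.H8.SC.NegX
import Pool.Agent.H8.SC.Schoen
import Pool.Agent.H71.ER.Orb

/-! # SC.Orb : sums over the group `G = {(ε, σ) ∈ {± 1}^(k × c) ⋊ S_k : ∏ ε = sgn(σ)^c}` (complete)

`orbX R` = the sum over `G` of the points `(β_σ(i); ε_ij P_σ(i)j)`.  `orbX_rat`: modulo rational equivalence `2 orbX R` is
`2^(kc) ∑_σ (the points of the zero sections over β_σ(i)) + 2^(kc) altX R`. -/

namespace SCX

open ES H68.BB FX

section
variable {G V ι : Type} [AddCommGroup G] [Fintype V] [Fintype ι] [DecidableEq ι]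

/-- change of weights in all slots -/
theorem weight_eqI (g g' : V → ℤ) (C : (ι → V) → G)
    (h : ∀ (x : ι → V) (j : ι), ∑ a, g a • C (Function.update x j a) = ∑ a, g' a • C (Function.update x j a)) :
    ∑ x : ι → V, (∏ j, g (x j)) • C x = ∑ x : ι → V, (∏ j, g' (x j)) • C x := by
  classical
  let e := Fintype.equivFin ι
  have h1 := weight_eq g g' (Fintype.card ι) (fun x => C (x ∘ e)) (fun x j => by
    have h2 := h (x ∘ e) (e.symm j)
    have h3 : ∀ a, Function.update x j a ∘ e = Function.update (x ∘ e) (e.symm j) a := by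
      intro a
      funext l
      show Function.update x j a (e l) = _
      by_cases hl : l = e.symm j
      · subst hl
        rw [Equiv.apply_symm_apply, Function.update_self, Function.update_self]
      · have hl' : e l ≠ j := fun h => hl ((Equiv.eq_symm_apply e).2 h)
        rw [Function.update_of_ne hl, Function.update_of_ne hl']
        rfl
    simp only [h3]
    exact h2)
  have h4 : ∀ f : V → ℤ, ∑ x : ι → V, (∏ j, f (x j)) • C x = ∑ x : Fin (Fintype.card ι) → V, (∏ j, f (x j)) • C (x ∘ e) := by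
    intro f
    refine Fintype.sum_equiv (Equiv.arrowCongr e (Equiv.refl V)) _ _ fun x => ?_
    have h5 : (Equiv.arrowCongr e (Equiv.refl V)) x ∘ e = x := by
      funext l
      show x (e.symm (e l)) = x l
      rw [Equiv.symm_apply_apply]
    rw [h5]
    congr 1
    rw [← Equiv.prod_comp e.symm]
    rfl
  rw [h4 g, h4 g']
  exact h1

end

variable {K : Type} [Field K] {s c k : ℕ}

/-- `(β; ε_j P_j)` -/
def sgR (ε : Fin c → ℤˣ) (R : Row s c K) : Row s c K := ⟨R.β, fun j => (R.P j).sg (ε j)⟩

/-- the sum over the group `G = {(ε, σ) : ∏ ε_ij = sgn(σ)^c}` of the points `(ε_i R_σ(i))_i` -/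
noncomputable def orbX (R : Fin k → Row s c K) : CycX k s c K :=
  ∑ σ : Equiv.Perm (Fin k), ∑ ε ∈ (Finset.univ : Finset (Fin k → Fin c → ℤˣ)).filter
    (fun ε => ∏ i, ∏ j, ε i j = Equiv.Perm.sign σ ^ c), ptX (fun i => sgR (ε i) (R (σ i)))

/-- `P`, `-P` or `o` -/
def pk (P : Pt s K) : Option ℤˣ → Pt s K
  | some e => P.sg e
  | none => o s K

/-- the tuple of rows with signs or `o` -/
def pkX (R : Fin k → Row s c K) (x : Fin k × Fin c → Option ℤˣ) : Fin k → Row s c K :=
  fun i => ⟨(R i).β, fun j => pk ((R i).P j) (x (i, j))⟩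

private theorem sg_one' (Q : Pt s K) : Q.sg 1 = Q := by
  unfold ES.Pt.sg
  rw [if_pos rfl]

private theorem sg_neg' (Q : Pt s K) : Q.sg (-1) = Q.neg := by
  unfold ES.Pt.sg Pt.neg
  rw [if_neg (by decide)]

private theorem neg_sg (Q : Pt s K) (e : ℤˣ) : (Q.sg e) = Q ∨ Q.sg e = Q.neg := by
  rcases Int.units_eq_one_or e with h | h
  · left; rw [h, sg_one']
  · right; rw [h, sg_neg']

variable {X : XD K s c}

theorem pk_onW {W : Wm K s} (hW : W.Ok) {P : Pt s K} (hP : OnW W P) (a : Option ℤˣ) : OnW W (pk P a) := by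
  cases a with
  | none => exact OnW_o hW K
  | some e =>
    rcases neg_sg P e with h | h
    · show OnW W (P.sg e)
      rw [h]; exact hP
    · show OnW W (P.sg e)
      rw [h]; exact OnW_neg hP

theorem pk_over {v : Fin s → ℕ} {β : Fin s → K} {P : Pt s K} (h : Over v β P.β) (a : Option ℤˣ) : Over v β (pk P a).β := by
  cases a with
  | none => exact Or.inl rfl
  | some e =>
    rcases neg_sg P e with h1 | h1
    · show Over v β (P.sg e).β
      rw [h1]; exact h
    · show Over v β (P.sg e).β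
      rw [h1]; exact h

theorem pkX_onX (hX : X.Ok) {R : Fin k → Row s c K} (hR : ∀ i, OnX X (R i)) (x : Fin k × Fin c → Option ℤˣ) (i : Fin k) :
    OnX X (pkX R x i) :=
  ⟨(hR i).ne, (hR i).I, fun j => pk_onW (hX.W j) ((hR i).on j) _, fun j => pk_over ((hR i).ov j) _⟩

private theorem sum_opt {G : Type} [AddCommGroup G] (F : Option ℤˣ → G) : ∑ a, F a = F none + (F (some 1) + F (some (-1))) := by
  rw [Fintype.sum_option]
  congr 1
  rw [UnitsInt.univ]
  rw [Finset.sum_insert (by decide), Finset.sum_singleton]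

private theorem pkX_update (R : Fin k → Row s c K) (x : Fin k × Fin c → Option ℤˣ) (q : Fin k × Fin c) (a : Option ℤˣ) :
    pkX R (Function.update x q a) = setP (pkX R x) q.1 q.2 (pk ((R q.1).P q.2) a) := by
  funext i
  unfold setP
  by_cases hi : i = q.1
  · subst hi
    rw [Function.update_self]
    refine Row.ext rfl ?_
    funext j
    show pk ((R q.1).P j) (Function.update x q a (q.1, j)) =
      Function.update (pkX R x q.1).P q.2 (pk ((R q.1).P q.2) a) j
    by_cases hj : j = q.2
    · subst hj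
      rw [Function.update_self, Function.update_self]
    · rw [Function.update_of_ne hj, Function.update_of_ne (fun h => hj (congrArg Prod.snd h))]
      rfl
  · rw [Function.update_of_ne hi]
    refine Row.ext rfl ?_
    funext j
    show pk ((R i).P j) (Function.update x q a (i, j)) = pk ((R i).P j) (x (i, j))
    rw [Function.update_of_ne (fun h => hi (congrArg Prod.fst h))]

variable [IsAlgClosed K]

/-- the sums with weights `g` and `g'` are rationally equivalent if `(g - g')(± 1) = d`, `(g - g')(0) = - 2 d` -/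
theorem weightX (hX : X.Ok) {R : Fin k → Row s c K} (hR : ∀ i, OnX X (R i)) (g g' : Option ℤˣ → ℤ) (d : ℤ)
    (h1 : g (some 1) = g' (some 1) + d) (h2 : g (some (-1)) = g' (some (-1)) + d) (h3 : g none = g' none - 2 * d) :
    ∑ x : Fin k × Fin c → Option ℤˣ, (∏ q, g (x q)) • cqX X (pkX R x) =
      ∑ x : Fin k × Fin c → Option ℤˣ, (∏ q, g' (x q)) • cqX X (pkX R x) := by
  classical
  refine weight_eqI g g' (fun x => cqX X (pkX R x)) fun x q => ?_
  simp only [pkX_update]
  have hn := negqX hX (pkX_onX hX hR x) q.1 q.2 ((hR q.1).on q.2) ((hR q.1).ov q.2)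
  rw [sum_opt, sum_opt, h1, h2, h3]
  have p1 : pk ((R q.1).P q.2) (some 1) = (R q.1).P q.2 := sg_one' _
  have p2 : pk ((R q.1).P q.2) (some (-1)) = ((R q.1).P q.2).neg := sg_neg' _
  have p3 : pk ((R q.1).P q.2) none = o s K := rfl
  rw [p1, p2, p3]
  set A := cqX X (setP (pkX R x) q.1 q.2 ((R q.1).P q.2)) with hA
  set B := cqX X (setP (pkX R x) q.1 q.2 ((R q.1).P q.2).neg) with hB
  set C := cqX X (setP (pkX R x) q.1 q.2 (o s K)) with hC
  have e2 : (g' none - 2 * d) • C + ((g' (some 1) + d) • A + (g' (some (-1)) + d) • B) =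
      (g' none • C + (g' (some 1) • A + g' (some (-1)) • B)) + d • ((A + B) - 2 • C) := by
    module
  rw [e2, hn, sub_self, smul_zero, add_zero]

omit [IsAlgClosed K] in
/-- only signs -/
private theorem sum_signs {G : Type} [AddCommGroup G] (g : Option ℤˣ → ℤ) (hg : g none = 0) (F : (Fin k × Fin c → Option ℤˣ) → G) :
    ∑ x : Fin k × Fin c → Option ℤˣ, (∏ q, g (x q)) • F x =
      ∑ ε : Fin k → Fin c → ℤˣ, (∏ i, ∏ j, g (some (ε i j))) • F (fun q => some (ε q.1 q.2)) := by
  classical
  symm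
  refine Fintype.sum_of_injective (fun (ε : Fin k → Fin c → ℤˣ) q => some (ε q.1 q.2)) ?_ _ _ ?_ ?_
  · intro ε ε' h
    funext i j
    exact Option.some.inj (congrFun h (i, j))
  · intro x hx
    have h1 : ∃ q, x q = none := by
      by_contra hne
      push Not at hne
      apply hx
      have h2 : ∀ q, ∃ e, x q = some e := fun q => Option.ne_none_iff_exists'.1 (hne q)
      choose e he using h2
      exact ⟨fun i j => e (i, j), funext fun q => (he q).symm⟩
    obtain ⟨q, hq⟩ := h1
    rw [Finset.prod_eq_zero (Finset.mem_univ q) (by rw [hq, hg]), zero_smul]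
  · intro ε
    rw [Fintype.prod_prod_type]

omit [IsAlgClosed K] in
private theorem sum_none {G : Type} [AddCommGroup G] (g : Option ℤˣ → ℤ) (h1 : g (some 1) = 0) (h2 : g (some (-1)) = 0)
    (h3 : g none = 2) (F : (Fin k × Fin c → Option ℤˣ) → G) :
    ∑ x : Fin k × Fin c → Option ℤˣ, (∏ q, g (x q)) • F x = (2 ^ (k * c) : ℤ) • F (fun _ => none) := by
  classical
  rw [Fintype.sum_eq_single (fun _ => none)]
  · rw [Finset.prod_congr rfl (fun q _ => h3), Finset.prod_const, Finset.card_univ, Fintype.card_prod, Fintype.card_fin,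
      Fintype.card_fin]
  · intro x hx
    obtain ⟨q, hq⟩ := Function.ne_iff.1 hx
    rw [Finset.prod_eq_zero (Finset.mem_univ q), zero_smul]
    obtain ⟨e, he⟩ := Option.ne_none_iff_exists'.1 hq
    rw [he]
    rcases Int.units_eq_one_or e with h | h
    · rw [h, h1]
    · rw [h, h2]

omit [IsAlgClosed K] in
private theorem sum_prodX (g : Option ℤˣ → ℤ) (h1 : g (some 1) = 2) (h2 : g (some (-1)) = 0)
    (h3 : g none = -2) (R : Fin k → Row s c K) :
    ∑ x : Fin k × Fin c → Option ℤˣ, (∏ q, g (x q)) • cqX X (pkX R x) =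
      (2 ^ (k * c) : ℤ) • (QuotientAddGroup.mk (prodX R) : CycX k s c K ⧸ RatX k X) := by
  classical
  have h4 := Fintype.sum_of_injective (fun (J : Finset (Fin k × Fin c)) q => if q ∈ J then (none : Option ℤˣ) else some 1) (by
      intro J J' h
      ext q
      have h5 := congrFun h q
      dsimp only at h5
      by_cases hq : q ∈ J <;> by_cases hq' : q ∈ J' <;> simp [hq, hq'] at h5 ⊢)
    (fun J : Finset (Fin k × Fin c) => (2 ^ (k * c) : ℤ) • (-1 : ℤ) ^ J.card • cqX X (rep J R))
    (fun x => (∏ q, g (x q)) • cqX X (pkX R x)) (by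
      intro x hx
      have h5 : ∃ q, x q = some (-1) := by
        by_contra hne
        push Not at hne
        apply hx
        refine ⟨Finset.univ.filter fun q => x q = none, funext fun q => ?_⟩
        dsimp only
        split_ifs with hq
        · exact (Finset.mem_filter.1 hq).2.symm
        · have hq' : x q ≠ none := fun h => hq (Finset.mem_filter.2 ⟨Finset.mem_univ _, h⟩)
          obtain ⟨e, he⟩ := Option.ne_none_iff_exists'.1 hq'
          rcases Int.units_eq_one_or e with h | h
          · rw [he, h]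
          · exact absurd (by rw [he, h]) (hne q)
      obtain ⟨q, hq⟩ := h5
      rw [Finset.prod_eq_zero (Finset.mem_univ q) (by rw [hq, h2])]
      exact zero_zsmul _) (by
      intro J
      dsimp only
      have e1 : pkX R (fun q => if q ∈ J then (none : Option ℤˣ) else some 1) = rep J R := by
        funext i
        unfold pkX rep
        refine Row.ext rfl ?_
        funext j
        show pk ((R i).P j) (if (i, j) ∈ J then none else some 1) = if (i, j) ∈ J then o s K else (R i).P j
        split_ifs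
        · rfl
        · exact sg_one' _
      have e2 : ∏ q : Fin k × Fin c, g (if q ∈ J then (none : Option ℤˣ) else some 1) = 2 ^ (k * c) * (-1) ^ J.card := by
        have e3 : ∀ q : Fin k × Fin c, g (if q ∈ J then (none : Option ℤˣ) else some 1) = 2 * (if q ∈ J then (-1 : ℤ) else 1) := by
          intro q
          split_ifs
          · rw [h3]; norm_num
          · rw [h1]; norm_num
        rw [Finset.prod_congr rfl (fun q _ => e3 q), Finset.prod_mul_distrib, Finset.prod_const, Finset.card_univ,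
          Fintype.card_prod, Fintype.card_fin, Fintype.card_fin, Finset.prod_ite, Finset.prod_const_one, mul_one, Finset.prod_const]
        congr 3
        ext q
        simp
      rw [e1, e2, mul_smul])
  rw [← h4, ← Finset.smul_sum]
  congr 1
  unfold prodX
  have h5 := map_sum (QuotientAddGroup.mk' (RatX k X)) (fun J : Finset (Fin k × Fin c) => (-1 : ℤ) ^ J.card • ptX (rep J R)) Finset.univ
  simp only [map_zsmul] at h5
  exact h5.symm

/-- the orbit sum modulo rational equivalence -/
theorem orbX_rat (hX : X.Ok) {R : Fin k → Row s c K} (hR : ∀ i, OnX X (R i)) :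
    2 • orbX R - (2 ^ (k * c) : ℤ) • ∑ σ : Equiv.Perm (Fin k), ptX (fun i => sec c (R (σ i)).β) - (2 ^ (k * c) : ℤ) • altX R ∈ RatX k X := by
  classical
  rw [← QuotientAddGroup.eq_zero_iff]
  have key : ∀ σ : Equiv.Perm (Fin k), (QuotientAddGroup.mk (2 • ∑ ε ∈ (Finset.univ : Finset (Fin k → Fin c → ℤˣ)).filter
      (fun ε => ∏ i, ∏ j, ε i j = Equiv.Perm.sign σ ^ c), ptX (fun i => sgR (ε i) (R (σ i)))) : CycX k s c K ⧸ RatX k X) =
      QuotientAddGroup.mk ((2 ^ (k * c) : ℤ) • ptX (fun i => sec c (R (σ i)).β) +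
        (2 ^ (k * c) : ℤ) • (((Equiv.Perm.sign σ : ℤ)) ^ c • prodX (fun i => R (σ i)))) := by
    intro σ
    set Q : Fin k → Row s c K := fun i => R (σ i) with hQ
    have hQX : ∀ i, OnX X (Q i) := fun i => hR _
    have c1 := weightX hX hQX (fun a => a.elim 0 fun _ => 1) (fun a => a.elim 2 fun _ => 0) 1 (by simp) (by simp) (by simp)
    have c2 := weightX hX hQX (fun a => a.elim 0 fun e => (e : ℤ)) (fun a => a.elim (-2) fun e => if e = 1 then 2 else 0) (-1)
      (by simp) (by simp) (by simp)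
    rw [sum_signs (fun a => a.elim 0 fun _ => 1) rfl, sum_none (fun a => a.elim 2 fun _ => 0) rfl rfl rfl] at c1
    rw [sum_signs (fun a => a.elim 0 fun e => (e : ℤ)) rfl,
      sum_prodX (fun a => a.elim (-2) fun e => if e = 1 then 2 else 0) (by simp) (by simp) rfl] at c2
    have e1 : ∀ ε : Fin k → Fin c → ℤˣ, pkX Q (fun q => some (ε q.1 q.2)) = fun i => sgR (ε i) (R (σ i)) := fun ε => rfl
    have e2 : pkX Q (fun _ => none) = fun i => sec c (R (σ i)).β := rfl
    simp only [Option.elim_some, Finset.prod_const_one, one_smul, e1] at c1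
    simp only [Option.elim_some, e1] at c2
    rw [e2] at c1
    set η : ℤˣ := Equiv.Perm.sign σ ^ c with hη
    have h1 : (QuotientAddGroup.mk (2 • ∑ ε ∈ (Finset.univ : Finset (Fin k → Fin c → ℤˣ)).filter
      (fun ε => ∏ i, ∏ j, ε i j = η), ptX (fun i => sgR (ε i) (R (σ i)))) : CycX k s c K ⧸ RatX k X) =
        ∑ ε : Fin k → Fin c → ℤˣ, cqX X (fun i => sgR (ε i) (R (σ i))) +
          (η : ℤ) • ∑ ε : Fin k → Fin c → ℤˣ, (∏ i, ∏ j, ((ε i j : ℤˣ) : ℤ)) • cqX X (fun i => sgR (ε i) (R (σ i))) := by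
      have e3 : (η : ℤ) • ∑ ε : Fin k → Fin c → ℤˣ, (∏ i, ∏ j, ((ε i j : ℤˣ) : ℤ)) • cqX X (fun i => sgR (ε i) (R (σ i))) =
          ∑ ε : Fin k → Fin c → ℤˣ, (η : ℤ) • (∏ i, ∏ j, ((ε i j : ℤˣ) : ℤ)) • cqX X (fun i => sgR (ε i) (R (σ i))) :=
        Finset.smul_sum
      rw [e3, ← Finset.sum_add_distrib, Finset.sum_filter]
      have h2 := map_sum (QuotientAddGroup.mk' (RatX k X)) (fun ε : Fin k → Fin c → ℤˣ =>
        if ∏ i, ∏ j, ε i j = η then ptX (fun i => sgR (ε i) (R (σ i))) else 0) Finset.univ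
      have h3 := map_nsmul (QuotientAddGroup.mk' (RatX k X)) 2 (∑ ε : Fin k → Fin c → ℤˣ,
        if ∏ i, ∏ j, ε i j = η then ptX (fun i => sgR (ε i) (R (σ i))) else 0)
      refine Eq.trans h3 ?_
      rw [h2, Finset.smul_sum]
      refine Finset.sum_congr rfl fun ε _ => ?_
      have h4 : (η : ℤ) • (∏ i, ∏ j, ((ε i j : ℤˣ) : ℤ)) • cqX X (fun i => sgR (ε i) (R (σ i))) =
          ((η * ∏ i, ∏ j, ε i j : ℤˣ) : ℤ) • cqX X (fun i => sgR (ε i) (R (σ i))) := by
        rw [smul_smul, Units.val_mul]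
        congr 2
        rw [Units.coe_prod]
        exact Finset.prod_congr rfl fun i _ => (Units.coe_prod _ _).symm
      rw [h4]
      split_ifs with h
      · rw [h, Int.units_mul_self, Units.val_one, one_smul, two_smul]
        rfl
      · have h5 : η * ∏ i, ∏ j, ε i j = -1 := by
          rcases Int.units_eq_one_or (η * ∏ i, ∏ j, ε i j) with h6 | h6
          · exfalso
            apply h
            calc ∏ i, ∏ j, ε i j = η * (η * ∏ i, ∏ j, ε i j) := by rw [← mul_assoc, Int.units_mul_self, one_mul]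
              _ = η := by rw [h6, mul_one]
          · exact h6
        rw [h5, Units.val_neg, Units.val_one, neg_smul, one_smul, add_neg_cancel, map_zero, smul_zero]
    rw [h1, c1, c2, QuotientAddGroup.mk_add, QuotientAddGroup.mk_zsmul, QuotientAddGroup.mk_zsmul, QuotientAddGroup.mk_zsmul]
    have h6 : (η : ℤ) = ((Equiv.Perm.sign σ : ℤ)) ^ c := by rw [hη, Units.val_pow_eq_pow_val]
    rw [h6, smul_comm]
    rfl
  have h1 : (QuotientAddGroup.mk (2 • orbX R) : CycX k s c K ⧸ RatX k X) =
      QuotientAddGroup.mk ((2 ^ (k * c) : ℤ) • ∑ σ : Equiv.Perm (Fin k), ptX (fun i => sec c (R (σ i)).β) + (2 ^ (k * c) : ℤ) • altX R) := by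
    unfold orbX
    rw [Finset.smul_sum]
    have h2 := map_sum (QuotientAddGroup.mk' (RatX k X)) (fun σ : Equiv.Perm (Fin k) =>
      2 • ∑ ε ∈ (Finset.univ : Finset (Fin k → Fin c → ℤˣ)).filter
      (fun ε => ∏ i, ∏ j, ε i j = Equiv.Perm.sign σ ^ c), ptX (fun i => sgR (ε i) (R (σ i)))) Finset.univ
    have h3 := map_sum (QuotientAddGroup.mk' (RatX k X)) (fun σ : Equiv.Perm (Fin k) =>
      (2 ^ (k * c) : ℤ) • ptX (fun i => sec c (R (σ i)).β) +
        (2 ^ (k * c) : ℤ) • (((Equiv.Perm.sign σ : ℤ)) ^ c • prodX (fun i => R (σ i)))) Finset.univ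
    refine Eq.trans h2 ?_
    refine Eq.trans (Finset.sum_congr rfl fun σ _ => key σ) ?_
    refine Eq.trans h3.symm ?_
    show (QuotientAddGroup.mk _ : CycX k s c K ⧸ RatX k X) = QuotientAddGroup.mk _
    congr 1
    rw [Finset.sum_add_distrib, ← Finset.smul_sum, ← Finset.smul_sum]
    rfl
  rw [sub_sub, QuotientAddGroup.mk_sub, h1, sub_self]

end SCX
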