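import Pool.Agent.H8.SC.Push

/-! # SC.Brk : the zero-cycles `⟨R⟩`, the images under the maps `rho j : X → X` which replace the point of the `j`-th surface by `o`
(complete) -/

namespace SCX

open ES H68.BB FX

variable {K : Type} [Field K] {s c k : ℕ}

/-- replace the point of the `j`-th surface by `o` -/
def rho (j : Fin c) (R : Row s c K) : Row s c K := ⟨R.β, Function.update R.P j (o s K)⟩

/-- replace the points of the surfaces in `J` by `o` -/
noncomputable def rJ (J : Finset (Fin c)) (R : Row s c K) : Row s c K := ⟨R.β, fun j => if j ∈ J then o s K else R.P j⟩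

/-- the zero-cycle `⟨R⟩` -/
noncomputable def brk (R : Row s c K) : Row s c K →₀ ℤ :=
  ∑ J : Finset (Fin c), (-1 : ℤ) ^ J.card • Finsupp.single (rJ J R) (1 : ℤ)

/-- families of subsets -/
private noncomputable def subE (k c : ℕ) : Finset (Fin k × Fin c) ≃ (Fin k → Finset (Fin c)) where
  toFun J i := Finset.univ.filter fun j => (i, j) ∈ J
  invFun x := Finset.univ.filter fun p => p.2 ∈ x p.1
  left_inv J := by
    ext p
    simp
  right_inv x := by
    funext i
    ext j
    simp

private theorem subE_card (J : Finset (Fin k × Fin c)) : J.card = ∑ i, (subE k c J i).card := by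
  classical
  rw [Finset.card_eq_sum_card_fiberwise (s := J) (t := Finset.univ) (f := Prod.fst) (fun _ _ => Finset.mem_univ _)]
  refine Finset.sum_congr rfl fun i _ => ?_
  refine Finset.card_bij (fun p _ => p.2) ?_ ?_ ?_
  · intro p hp
    obtain ⟨h1, h2⟩ := Finset.mem_filter.1 hp
    refine Finset.mem_filter.2 ⟨Finset.mem_univ _, ?_⟩
    rw [← h2]
    exact h1
  · intro p hp q hq h
    exact Prod.ext ((Finset.mem_filter.1 hp).2.trans (Finset.mem_filter.1 hq).2.symm) h
  · intro j hj
    exact ⟨(i, j), Finset.mem_filter.2 ⟨(Finset.mem_filter.1 hj).2, rfl⟩, rfl⟩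

/-- `prodX R` is the exterior product of the zero-cycles `⟨R_i⟩` -/
theorem prodX_eq (R : Fin k → Row s c K) : prodX R = boxX (fun i => brk (R i)) := by
  classical
  unfold brk
  rw [← boxXM_apply, (boxXM k (Row s c K)).map_sum (fun i (J : Finset (Fin c)) => (-1 : ℤ) ^ J.card • Finsupp.single (rJ J (R i)) (1 : ℤ))]
  unfold prodX
  refine Fintype.sum_equiv (subE k c) _ _ fun J => ?_
  rw [(boxXM k (Row s c K)).map_smul_univ (fun i => (-1 : ℤ) ^ (subE k c J i).card)
    (fun i => Finsupp.single (rJ (subE k c J i) (R i)) (1 : ℤ)), boxXM_apply, boxX_single, Finset.prod_pow_eq_pow_sum, ← subE_card]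
  unfold ptX
  congr 3
  funext i
  unfold rJ rep
  refine Row.ext rfl ?_
  funext j
  show (if (i, j) ∈ J then o s K else (R i).P j) = if j ∈ subE k c J i then o s K else (R i).P j
  have h1 : j ∈ subE k c J i ↔ (i, j) ∈ J := by
    show j ∈ Finset.univ.filter _ ↔ _
    rw [Finset.mem_filter]
    exact ⟨fun h => h.2, fun h => ⟨Finset.mem_univ _, h⟩⟩
  simp only [h1]

/-- the linear extension of `⟨ ⟩` -/
noncomputable def brkz (z : Row s c K →₀ ℤ) : Row s c K →₀ ℤ := ∑ R ∈ z.support, z R • brk R

theorem brkz_eq (z : Row s c K →₀ ℤ) :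
    brkz z = ∑ J : Finset (Fin c), (-1 : ℤ) ^ J.card • z.mapDomain (rJ J) := by
  unfold brkz brk Finsupp.mapDomain Finsupp.sum
  simp only [Finset.smul_sum]
  rw [Finset.sum_comm]
  refine Finset.sum_congr rfl fun J _ => Finset.sum_congr rfl fun R _ => ?_
  rw [smul_comm, Finsupp.smul_single, smul_eq_mul, mul_one]

theorem rJ_empty : (rJ ∅ : Row s c K → Row s c K) = id := by
  funext R
  unfold rJ
  refine Row.ext rfl ?_
  funext j
  simp

theorem rJ_rho {J : Finset (Fin c)} {j : Fin c} (hj : j ∈ J) : (rJ J : Row s c K → Row s c K) = rJ J ∘ rho j := by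
  funext R
  unfold rJ rho
  refine Row.ext rfl ?_
  funext j'
  show (if j' ∈ J then o s K else R.P j') = if j' ∈ J then o s K else Function.update R.P j (o s K) j'
  by_cases h : j' = j
  · subst h
    rw [if_pos hj, if_pos hj]
  · rw [Function.update_of_ne h]

/-- the choice of the columns outside `J` -/
noncomputable def gJ (J : Finset (Fin c)) (j : Fin c) : Option (Fin c) := if j ∈ J then none else some j

theorem rJ_colm (J : Finset (Fin c)) (R : Row s c K) : rJ J R = colm (gJ J) R := by
  unfold rJ colm gJ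
  refine Row.ext rfl ?_
  funext j
  show (if j ∈ J then o s K else R.P j) = (if j ∈ J then none else some j : Option (Fin c)).elim (o s K) R.P
  split_ifs <;> rfl

variable {X : XD K s c}

theorem gJ_cmpt (J : Finset (Fin c)) : Cmpt X X (gJ J) := by
  refine ⟨rfl, rfl, fun j j' h => ?_⟩
  unfold gJ at h
  split_ifs at h
  rw [Option.some.inj h]

theorem rJ_onX (hX : X.Ok) (J : Finset (Fin c)) {R : Row s c K} (h : OnX X R) : OnX X (rJ J R) := by
  rw [rJ_colm]
  exact colm_onX hX (gJ_cmpt J) h

theorem rJ_rat (hX : X.Ok) (J : Finset (Fin c)) {z : Row s c K →₀ ℤ} (hz : boxX (fun _ : Fin 1 => z) ∈ RatX 1 X) :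
    boxX (fun _ : Fin 1 => z.mapDomain (rJ J)) ∈ RatX 1 X := by
  have h1 := RatX_colm hX (gJ_cmpt (X := X) J) hz
  rw [boxX_one] at h1 ⊢
  rw [← Finsupp.mapDomain_comp] at h1 ⊢
  have e : (fun (R : Fin 1 → Row s c K) (i : Fin 1) => colm (gJ J) (R i)) ∘ (fun r (_ : Fin 1) => r) =
      (fun r (_ : Fin 1) => r) ∘ rJ J := by
    funext R i
    exact (rJ_colm J R).symm
  rwa [e] at h1

end SCX
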