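import Pool.Agent.H8.SC.Orb

/-! # SC.OrbP1 : the orbit sums over the base `ℙ¹` (complete) -/

namespace SCX

open ES H68.BB FX

variable {K : Type} [Field K] [IsAlgClosed K] {s c k : ℕ}

/-- any base curve: the orbit sum is a cycle on the zero section up to torsion -/
theorem orbX_tor {X : XD K s c} (hX : X.Ok) {R : Fin k → Row s c K} (hR : ∀ i, OnX X (R i)) (hA : ∃ N : ℕ, 0 < N ∧ N • altX R ∈ RatX k X) :
    ∃ N : ℕ, 0 < N ∧ N • (2 • orbX R - (2 ^ (k * c)) • ∑ σ : Equiv.Perm (Fin k), ptX (fun i => sec c (R (σ i)).β)) ∈ RatX k X := by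
  have h1 := le_tor _ (orbX_rat hX hR)
  have h2 := AddSubgroup.zsmul_mem (tor (RatX k X)) (mem_tor.2 hA) (2 ^ (k * c) : ℤ)
  have h3 := AddSubgroup.add_mem _ h1 h2
  rw [sub_add_cancel] at h3
  have e : (2 ^ (k * c) : ℕ) • (∑ σ : Equiv.Perm (Fin k), ptX (fun i => sec c (R (σ i)).β) : CycX k s c K) =
      (2 ^ (k * c) : ℤ) • ∑ σ : Equiv.Perm (Fin k), ptX (fun i => sec c (R (σ i)).β) := by
    rw [← natCast_zsmul, Nat.cast_pow, Nat.cast_ofNat]
  rw [e]
  exact h3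

/-- base `ℙ¹`: the orbit sum is constant up to torsion -/
theorem orbX_P1 {n : Fin c → ℕ} {a b : Fin c → MvPolynomial (Fin 2) K} (hX : (XP n a b).Ok) (hk : 0 < k) (hc : 0 < c)
    {R : Fin k → Row 2 c K} (hR : ∀ i, OnX (XP n a b) (R i)) (hA : ∃ N : ℕ, 0 < N ∧ N • altX R ∈ RatX k (XP n a b))
    {β0 : Fin 2 → K} (hβ0 : β0 ≠ 0) :
    ∃ N : ℕ, 0 < N ∧ N • (orbX R - (2 ^ (k * c - 1) * k.factorial) • ptX (fun _ => sec c β0)) ∈ RatX k (XP n a b) := by
  classical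
  have h1 : ∀ σ : Equiv.Perm (Fin k), ptX (fun i => sec c (R (σ i)).β) - ptX (fun _ => sec c β0) ∈ tor (RatX k (XP n a b)) := by
    intro σ
    have hon : ∀ β : Fin 2 → K, β ≠ 0 → OnX (XP n a b) (sec c β) := fun β hβ =>
      ⟨hβ, fun f hf => absurd hf (Set.notMem_empty f), fun j => OnW_o (hX.W j) K, fun j => Or.inl rfl⟩
    have h2 := boxX_congr (X := XP n a b) (z := fun i => Finsupp.single (sec c (R (σ i)).β) (1 : ℤ))
      (z' := fun _ => Finsupp.single (sec c β0) (1 : ℤ)) (fun i => single_OnZ (hon _ (hR _).ne) 1)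
      (fun _ => single_OnZ (hon _ hβ0) 1) (fun i => sec_nul hX (hR _).ne hβ0)
    rw [boxX_single, boxX_single] at h2
    exact h2
  have h2 := mem_tor.2 (orbX_tor hX hR hA)
  have h3 : (2 ^ (k * c)) • ∑ σ : Equiv.Perm (Fin k), (ptX (fun i => sec c (R (σ i)).β) - ptX (fun _ => sec c β0)) ∈
      tor (RatX k (XP n a b)) := AddSubgroup.nsmul_mem _ (AddSubgroup.sum_mem _ fun σ _ => h1 σ) _
  have h4 := AddSubgroup.add_mem _ h2 h3
  refine tor_of_nsmul (N := 2) two_pos ?_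
  have e : 2 • orbX R - (2 ^ (k * c)) • (∑ σ : Equiv.Perm (Fin k), ptX (fun i => sec c (R (σ i)).β)) +
      (2 ^ (k * c)) • ∑ σ : Equiv.Perm (Fin k), (ptX (fun i => sec c (R (σ i)).β) - ptX (fun _ => sec c β0)) =
      2 • (orbX R - (2 ^ (k * c - 1) * k.factorial) • ptX (fun _ => sec c β0)) := by
    rw [Finset.sum_sub_distrib, Finset.sum_const, Finset.card_univ, Fintype.card_perm, Fintype.card_fin, smul_sub, smul_sub,
      smul_smul, smul_smul]
    have e2 : 2 * (2 ^ (k * c - 1) * k.factorial) = 2 ^ (k * c) * k.factorial := by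
      rw [← mul_assoc, ← pow_succ', Nat.sub_add_cancel (Nat.mul_pos hk hc)]
    rw [e2]
    abel
  rwa [e] at h4

end SCX
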