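import Pool.Agent.H8.SC.Box
import Pool.Agent.H8.FX.Bas

/-! # SC.Push : push-forward of rational equivalence (complete)

`colm g`: the row with the column `g j` of the given row in column `j`, or the point `o` if `g j = none`.
`RatX_slot`: `RatX 1 X` in one slot and points of `X` in the other slots. -/

namespace SCX

open ES H68.BB FX

variable {K : Type} [Field K] {s c c' k : ℕ}

/-- choose columns -/
def colm {F : Type} [Zero F] [One F] (g : Fin c → Option (Fin c')) (R : Row s c' F) : Row s c F :=
  ⟨R.β, fun j => (g j).elim (o s F) R.P⟩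

theorem Sp_oo (W : Wm K s) (π : Place K (Om K)) : Sp W π (o s (Om K)) (o s K) := by
  refine Sp_fin (Or.inr (Or.inl one_ne_zero)) (fun i => ?_) ?_ ?_
  · exact Rd.zero
  · exact Rd.one
  · exact Rd.one

/-- the choice of columns is compatible with the surfaces -/
structure Cmpt (X : XD K s c) (X' : XD K s c') (g : Fin c → Option (Fin c')) : Prop where
  v : X.v = X'.v
  I : X.I = X'.I
  W : ∀ j j', g j = some j' → X.W j = X'.W j'

variable {X : XD K s c} {X' : XD K s c'} {g : Fin c → Option (Fin c')}

theorem colm_onX {F : Type} [Field F] [Algebra K F] (hX : X.Ok) (hg : Cmpt X X' g) {R : Row s c' F} (h : OnX X' R) :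
    OnX X (colm g R) := by
  refine ⟨h.ne, fun f hf => h.I f (hg.I ▸ hf), fun j => ?_, fun j => ?_⟩
  · show OnW (X.W j) ((g j).elim (o s F) R.P)
    cases hj : g j with
    | none => exact OnW_o (hX.W j) F
    | some j' =>
      rw [hg.W j j' hj]
      exact h.on j'
  · show Over X.v R.β ((g j).elim (o s F) R.P).β
    cases hj : g j with
    | none => exact Or.inl rfl
    | some j' =>
      rw [hg.v]
      exact h.ov j'

theorem colm_map (σ : Om K ≃ₐ[RatFunc K] Om K) (R : Row s c' (Om K)) : (colm g R).map σ = colm g (R.map σ) := by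
  refine Row.ext rfl ?_
  funext j
  show ((g j).elim (o s (Om K)) R.P).map σ = (g j).elim (o s (Om K)) fun j => (R.P j).map σ
  cases g j with
  | none =>
    show (o s (Om K)).map σ = o s (Om K)
    unfold ES.Pt.map o
    ext
    · exact map_zero σ
    · exact map_one σ
    · exact map_one σ
  | some j' => rfl

theorem colm_sp (hg : Cmpt X X' g) {π : Place K (Om K)} {R : Row s c' (Om K)} {r : Row s c' K} (h : SpR X' π R r) :
    SpR X π (colm g R) (colm g r) := by
  refine ⟨?_, fun j => ?_⟩
  · rw [hg.v]
    exact h.β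
  · show Sp (X.W j) π ((g j).elim (o s (Om K)) R.P) ((g j).elim (o s K) r.P)
    cases hj : g j with
    | none => exact Sp_oo _ π
    | some j' =>
      rw [hg.W j j' hj]
      exact h.P j'

theorem cycX_push {T T' : Type} (F : T → T') (C : Multiset T) :
    ((C.map fun R => Finsupp.single R (1 : ℤ)).sum).mapDomain F = ((C.map F).map fun R => Finsupp.single R (1 : ℤ)).sum := by
  have h := map_multiset_sum (Finsupp.mapDomain.addMonoidHom F : (T →₀ ℤ) →+ (T' →₀ ℤ)) (C.map fun R => Finsupp.single R (1 : ℤ))
  rw [Multiset.map_map] at h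
  refine h.trans ?_
  rw [Multiset.map_map]
  congr 1
  refine Multiset.map_congr rfl fun R _ => ?_
  exact Finsupp.mapDomain_single

/-- the push-forward of a subgroup generated by fibres of families -/
theorem RatX_push {m : ℕ} {X' : XD K s c'} (FO : (Fin m → Row s c' (Om K)) → Fin k → Row s c (Om K))
    (FK : (Fin m → Row s c' K) → Fin k → Row s c K) (hon : ∀ R, (∀ i, OnX X' (R i)) → ∀ i, OnX X (FO R i))
    (hσ : ∀ (σ : Om K ≃ₐ[RatFunc K] Om K) R, (fun i => (FO R i).map σ) = FO (fun i => (R i).map σ))
    (hsp : ∀ (π : Place K (Om K)) R r, SpX X' π R r → SpX X π (FO R) (FK r))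
    {z : CycX m s c' K} (hz : z ∈ RatX m X') : z.mapDomain FK ∈ RatX k X := by
  unfold RatX at hz
  induction hz using AddSubgroup.closure_induction with
  | mem z hz =>
    obtain ⟨S, π, π', C, C', hS, hG, h1, h2, rfl⟩ := hz
    have e : ((cycX C - cycX C').mapDomain FK : CycX k s c K) = cycX (C.map FK) - cycX (C'.map FK) := by
      have h3 : ∀ a b : CycX m s c' K, (a - b).mapDomain FK = a.mapDomain FK - b.mapDomain FK := fun a b =>
        map_sub (Finsupp.mapDomain.addMonoidHom FK : CycX m s c' K →+ CycX k s c K) a b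
      rw [h3]
      exact congrArg₂ _ (cycX_push FK C) (cycX_push FK C')
    rw [e]
    refine AddSubgroup.subset_closure ⟨S.map FO, π, π', C.map FK, C'.map FK, ?_, ?_, ?_, ?_, rfl⟩
    · intro T hT
      obtain ⟨Q, hQ, rfl⟩ := Multiset.mem_map.1 hT
      exact hon Q (hS Q hQ)
    · intro σ
      rw [Multiset.map_map]
      have e2 : ((fun (R : Fin k → Row s c (Om K)) i => (R i).map σ) ∘ FO) = FO ∘ fun R i => (R i).map σ := by
        funext R
        exact hσ σ R
      rw [e2, ← Multiset.map_map, hG σ]
    · rw [Multiset.rel_map]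
      exact h1.mono fun Q _ q _ hq => hsp π Q q hq
    · rw [Multiset.rel_map]
      exact h2.mono fun Q _ q _ hq => hsp π' Q q hq
  | zero =>
    rw [Finsupp.mapDomain_zero]
    exact AddSubgroup.zero_mem _
  | add x y _ _ hx hy =>
    rw [Finsupp.mapDomain_add]
    exact AddSubgroup.add_mem _ hx hy
  | neg x _ hx =>
    have h3 : (-x).mapDomain FK = -x.mapDomain FK := map_neg (Finsupp.mapDomain.addMonoidHom FK : CycX m s c' K →+ CycX k s c K) x
    rw [h3]
    exact AddSubgroup.neg_mem _ hx

/-- choosing columns -/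
theorem RatX_colm (hX : X.Ok) (hg : Cmpt X X' g) {z : CycX k s c' K} (hz : z ∈ RatX k X') :
    z.mapDomain (fun R i => colm g (R i)) ∈ RatX k X :=
  RatX_push (fun R i => colm g (R i)) (fun R i => colm g (R i)) (fun _ h i => colm_onX hX hg (h i))
    (fun σ R => funext fun i => colm_map σ (R i)) (fun _ _ _ h i => colm_sp hg (h i)) hz

/-- one slot -/
theorem RatX_slot {R : Fin k → Row s c K} {i : Fin k} (hR : ∀ j, j ≠ i → OnX X (R j)) {z : CycX 1 s c K} (hz : z ∈ RatX 1 X) :
    z.mapDomain (fun Q : Fin 1 → Row s c K => Function.update R i (Q 0)) ∈ RatX k X := by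
  refine RatX_push (fun Q => Function.update (fun j => (R j).map (algebraMap K (Om K))) i (Q 0)) _ ?_ ?_ ?_ hz
  · intro Q hQ j
    by_cases hj : j = i
    · subst hj; rw [Function.update_self]; exact hQ 0
    · rw [Function.update_of_ne hj]; exact OnX_cst (hR j hj)
  · intro σ Q
    funext j
    by_cases hj : j = i
    · subst hj; rw [Function.update_self, Function.update_self]
    · rw [Function.update_of_ne hj, Function.update_of_ne hj]; exact map_cstR σ _
  · intro π Q q hq j
    by_cases hj : j = i
    · subst hj; rw [Function.update_self, Function.update_self]; exact hq 0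
    · rw [Function.update_of_ne hj, Function.update_of_ne hj]; exact SpR_cst π (hR j hj)

/-- one slot of an exterior product -/
theorem boxX_slot {z : Fin k → (Row s c K →₀ ℤ)} (i : Fin k) (hz : ∀ j, j ≠ i → ∀ R ∈ (z j).support, OnX X R)
    {w : Row s c K →₀ ℤ} (hw : boxX (fun _ : Fin 1 => w) ∈ RatX 1 X) : boxX (Function.update z i w) ∈ RatX k X := by
  classical
  rw [boxX_update z i w ⟨0, fun _ => o s K⟩]
  refine AddSubgroup.sum_mem _ fun r hr => AddSubgroup.zsmul_mem _ ?_ _
  rw [← boxX_ins]
  refine RatX_slot (fun j hj => ?_) hw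
  have h1 := Fintype.mem_piFinset.1 hr j
  rw [if_neg hj] at h1
  exact hz j hj _ h1

end SCX
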